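import Pool.Agent.H227R3.Cvx.Defs

set_option autoImplicit false

namespace Pool.Agent.H227R3.Cvx

open Metric Topology

lemma le_of_mem_ball {a c x : E3} {r : ℝ} (ha : ‖a‖ = 1) (hx : x ∈ closedBall c r) :
    inner ℝ a x ≤ inner ℝ a c + r := by
  have h1 : inner ℝ a (x - c) ≤ ‖a‖ * ‖x - c‖ := real_inner_le_norm a (x - c)
  rw [mem_closedBall, dist_eq_norm] at hx
  rw [inner_sub_right, ha, one_mul] at h1
  linarith

lemma ge_of_mem_ball {a c x : E3} {r : ℝ} (ha : ‖a‖ = 1) (hx : x ∈ closedBall c r) :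
    inner ℝ a c - r ≤ inner ℝ a x := by
  have h1 : inner ℝ a (c - x) ≤ ‖a‖ * ‖c - x‖ := real_inner_le_norm a (c - x)
  rw [mem_closedBall, dist_eq_norm, norm_sub_rev] at hx
  rw [inner_sub_right, ha, one_mul] at h1
  linarith

lemma hull_le {a : E3} {b : ℝ} {S : Set E3} (h : ∀ x ∈ S, inner ℝ a x ≤ b) :
    ∀ x ∈ convexHull ℝ S, inner ℝ a x ≤ b := by
  intro x hx
  have hconv : Convex ℝ {x : E3 | inner ℝ a x ≤ b} := by
    have := convex_halfSpace_le (𝕜 := ℝ) (f := fun x : E3 => inner ℝ a x)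
      ⟨fun x y => inner_add_right a x y, fun c x => inner_smul_right a x c⟩ b
    exact this
  exact convexHull_min h hconv hx

/-- visible balls -/
lemma visible {κ : Type} (cen : κ → E3) (rad : κ → ℝ) (J : Set κ) (hJ : J.Finite) (i0 : κ)
    (hi0 : i0 ∈ J) (hr : 0 < rad i0) (a : E3) (ha : ‖a‖ = 1)
    (h : ∀ i ∈ J, i ≠ i0 → inner ℝ a (cen i) + rad i < inner ℝ a (cen i0) + rad i0) :
    ∃ U : Set E3, IsOpen U ∧ (U ∩ frontier (closedBall (cen i0) (rad i0))).Nonempty ∧
      U ∩ frontier (closedBall (cen i0) (rad i0)) ⊆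
        frontier (convexHull ℝ (⋃ i ∈ J, closedBall (cen i) (rad i))) := by
  set y0 : E3 := cen i0 + rad i0 • a with hy0
  have hfr : frontier (closedBall (cen i0) (rad i0)) = sphere (cen i0) (rad i0) :=
    frontier_closedBall _ hr.ne'
  have hcont : Continuous (fun y : E3 => (rad i0)⁻¹ • (y - cen i0)) := by fun_prop
  have hy0a : (rad i0)⁻¹ • (y0 - cen i0) = a := by
    rw [hy0, add_sub_cancel_left, smul_smul, inv_mul_cancel₀ hr.ne', one_smul]
  have hev : ∀ᶠ y in 𝓝 y0, ∀ i ∈ J, i ≠ i0 →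
      inner ℝ ((rad i0)⁻¹ • (y - cen i0)) (cen i) + rad i <
        inner ℝ ((rad i0)⁻¹ • (y - cen i0)) (cen i0) + rad i0 := by
    rw [Filter.eventually_all_finite hJ]
    intro i hi
    by_cases hne : i = i0
    · exact Filter.Eventually.of_forall (fun y h => absurd hne h)
    · have hc1 : Continuous (fun y : E3 => inner ℝ ((rad i0)⁻¹ • (y - cen i0)) (cen i) + rad i) := by
        fun_prop
      have hc2 : Continuous (fun y : E3 => inner ℝ ((rad i0)⁻¹ • (y - cen i0)) (cen i0) + rad i0) := by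
        fun_prop
      have := (hc1.tendsto y0).eventually_lt (hc2.tendsto y0) (by rw [hy0a]; exact h i hi hne)
      exact this.mono (fun y hy _ => hy)
  obtain ⟨U, hU1, hU2, hU3⟩ := _root_.eventually_nhds_iff.1 hev
  refine ⟨U, hU2, ⟨y0, hU3, ?_⟩, ?_⟩
  · rw [hfr, mem_sphere, dist_eq_norm, hy0, add_sub_cancel_left, norm_smul, ha, mul_one,
      Real.norm_eq_abs, abs_of_pos hr]
  · rintro y ⟨hyU, hy⟩
    rw [hfr, mem_sphere, dist_eq_norm] at hy
    set a' : E3 := (rad i0)⁻¹ • (y - cen i0) with ha'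
    have ha'1 : ‖a'‖ = 1 := by
      rw [ha', norm_smul, hy, norm_inv, Real.norm_eq_abs, abs_of_pos hr, inv_mul_cancel₀ hr.ne']
    have hya : y = cen i0 + rad i0 • a' := by
      rw [ha', smul_smul, mul_inv_cancel₀ hr.ne', one_smul]; abel
    have hin : inner ℝ a' y = inner ℝ a' (cen i0) + rad i0 := by
      rw [hya, inner_add_right, inner_smul_right, real_inner_self_eq_norm_sq, ha'1]; ring
    have hK : ∀ x ∈ convexHull ℝ (⋃ i ∈ J, closedBall (cen i) (rad i)), inner ℝ a' x ≤ inner ℝ a' y := by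
      apply hull_le
      intro x hx
      simp only [Set.mem_iUnion] at hx
      obtain ⟨i, hi, hx⟩ := hx
      have h1 := le_of_mem_ball ha'1 hx
      rw [hin]
      by_cases hne : i = i0
      · rw [hne] at h1; exact h1
      · exact h1.trans (hU1 y hyU i hi hne).le
    have hyK : y ∈ convexHull ℝ (⋃ i ∈ J, closedBall (cen i) (rad i)) := by
      apply subset_convexHull
      simp only [Set.mem_iUnion]
      refine ⟨i0, hi0, ?_⟩
      rw [mem_closedBall, dist_eq_norm, hy]
    rw [frontier, Set.mem_sdiff]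
    refine ⟨subset_closure hyK, fun hint => ?_⟩
    rw [mem_interior_iff_mem_nhds] at hint
    have hcont2 : Filter.Tendsto (fun t : ℝ => y + t • a') (𝓝 0) (𝓝 y) := by
      have : Continuous (fun t : ℝ => y + t • a') := by fun_prop
      have := this.tendsto 0
      simpa using this
    have hev2 := hcont2.eventually hint
    have hev3 : ∀ᶠ t : ℝ in 𝓝[>] 0, y + t • a' ∈ convexHull ℝ (⋃ i ∈ J, closedBall (cen i) (rad i)) :=
      hev2.filter_mono nhdsWithin_le_nhds
    obtain ⟨t, ht, htpos⟩ := (hev3.and self_mem_nhdsWithin).exists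
    have := hK _ ht
    rw [inner_add_right, inner_smul_right, real_inner_self_eq_norm_sq, ha'1] at this
    have htpos' : 0 < t := htpos
    linarith

/-- the data of a good configuration -/
structure Config (ι : Type) where
  P : ι → E3
  ρ : ℝ
  hρ : 0 < ρ
  e1 : ∀ i, ∃ a : E3, ‖a‖ = 1 ∧ (∀ j, j ≠ i → inner ℝ a (P j) + ρ < inner ℝ a (P i) - ρ) ∧
    1 < inner ℝ a (P i) - ρ
  e2 : ∀ i j, i ≠ j → ∃ a : E3, ‖a‖ = 1 ∧ 1 < inner ℝ a (P i) - ρ ∧ 1 < inner ℝ a (P j) - ρ
  e3 : ∀ i, ∃ a : E3, ‖a‖ = 1 ∧ ∀ j, j ≠ i → inner ℝ a (P j) + ρ < 1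
  e4 : closedBall (0 : E3) 1 ⊆ interior (convexHull ℝ (Set.range P))
  n4 : ∀ i j k l, i ≠ j → i ≠ k → i ≠ l → j ≠ k → j ≠ l → k ≠ l → ∀ (a : E3) (b : ℝ), ‖a‖ = 1 →
    ¬ (|inner ℝ a (P i) - b| = ρ ∧ |inner ℝ a (P j) - b| = ρ ∧ |inner ℝ a (P k) - b| = ρ ∧
      |inner ℝ a (P l) - b| = ρ)
  n3 : ∀ i j k, i ≠ j → i ≠ k → j ≠ k → ∀ (a : E3) (b : ℝ), ‖a‖ = 1 → |b| = 1 →
    ¬ (|inner ℝ a (P i) - b| = ρ ∧ |inner ℝ a (P j) - b| = ρ ∧ |inner ℝ a (P k) - b| = ρ)

namespace Config

variable {ι : Type} (X : Config ι)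

def cen : Option ι → E3
  | none => 0
  | some i => X.P i

def rad : Option ι → ℝ
  | none => 1
  | some _ => X.ρ

lemma rad_pos (x : Option ι) : 0 < X.rad x := by
  cases x with
  | none => exact one_pos
  | some i => exact X.hρ

def F (x : Option ι) : Set E3 := closedBall (X.cen x) (X.rad x)

lemma exp1 (i : ι) : ∃ a : E3, ‖a‖ = 1 ∧ ∀ y, y ≠ some i →
    inner ℝ a (X.cen y) + X.rad y < inner ℝ a (X.P i) - X.ρ := by
  obtain ⟨a, ha, h1, h2⟩ := X.e1 i
  refine ⟨a, ha, fun y hy => ?_⟩
  cases y with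
  | none =>
    show inner ℝ a (0 : E3) + 1 < _
    rw [inner_zero_right]; linarith
  | some j => exact h1 j (fun h => hy (by rw [h]))

lemma F_inj : Function.Injective X.F := by
  have key : ∀ (i : ι) (y : Option ι), y ≠ some i → X.F (some i) ≠ X.F y := by
    intro i y hy h
    obtain ⟨a, ha, h1⟩ := X.exp1 i
    have h2 : X.P i ∈ X.F y := by
      rw [← h]; exact mem_closedBall_self X.hρ.le
    have h3 := le_of_mem_ball ha h2
    have h4 := h1 y hy
    have := X.hρ
    linarith
  intro x y h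
  by_contra hne
  cases x with
  | some i => exact key i y (Ne.symm hne) h
  | none =>
    cases y with
    | none => exact hne rfl
    | some j => exact key j none (by simp) h.symm

lemma body (x : Option ι) : IsBody (X.F x) := by
  refine ⟨isCompact_closedBall _ _, convex_closedBall _ _, ?_⟩
  refine ⟨X.cen x, ?_⟩
  have : ball (X.cen x) (X.rad x) ⊆ interior (X.F x) := ball_subset_interior_closedBall
  exact this (mem_ball_self (X.rad_pos x))

lemma separable : Separable (Set.range X.F) := by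
  rintro _ ⟨x, rfl⟩ _ ⟨y, rfl⟩ _ ⟨z, rfl⟩ hxy hxz hyz
  have hxy' : x ≠ y := fun h => hxy (by rw [h])
  have hxz' : x ≠ z := fun h => hxz (by rw [h])
  have hyz' : y ≠ z := fun h => hyz (by rw [h])
  cases z with
  | some i =>
    obtain ⟨a, ha, h1⟩ := X.exp1 i
    have h2 := h1 x hxz'
    have h3 := h1 y hyz'
    obtain ⟨b, hb1, hb2⟩ := exists_between (max_lt h2 h3)
    refine ⟨a, b, by intro h; rw [h, norm_zero] at ha; exact zero_ne_one ha, ?_, ?_⟩
    · rintro u (hu | hu)
      · exact (le_of_mem_ball ha hu).trans_lt ((le_max_left _ _).trans_lt hb1)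
      · exact (le_of_mem_ball ha hu).trans_lt ((le_max_right _ _).trans_lt hb1)
    · intro u hu
      exact hb2.trans_le (ge_of_mem_ball ha hu)
  | none =>
    cases x with
    | none => exact absurd rfl hxz'
    | some i =>
      cases y with
      | none => exact absurd rfl hyz'
      | some j =>
        obtain ⟨a, ha, h1, h2⟩ := X.e2 i j (fun h => hxy' (by rw [h]))
        obtain ⟨b, hb1, hb2⟩ := exists_between (lt_min h1 h2)
        have hna : ‖-a‖ = 1 := by rw [norm_neg]; exact ha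
        refine ⟨-a, -b, by intro h; rw [h, norm_zero] at hna; exact zero_ne_one hna, ?_, ?_⟩
        · rintro u (hu | hu)
          · have := ge_of_mem_ball ha hu
            have h3 : inner ℝ a (X.cen (some i)) - X.rad (some i) = inner ℝ a (X.P i) - X.ρ := rfl
            rw [h3] at this
            rw [inner_neg_left]
            have := hb2.trans_le (min_le_left _ _)
            linarith
          · have := ge_of_mem_ball ha hu
            have h3 : inner ℝ a (X.cen (some j)) - X.rad (some j) = inner ℝ a (X.P j) - X.ρ := rfl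
            rw [h3] at this
            rw [inner_neg_left]
            have := hb2.trans_le (min_le_right _ _)
            linarith
        · intro u hu
          have := le_of_mem_ball ha hu
          have h3 : inner ℝ a (X.cen none) + X.rad none = 0 + 1 := by
            show inner ℝ a (0 : E3) + 1 = 0 + 1
            rw [inner_zero_right]
          rw [h3] at this
          rw [inner_neg_left]
          linarith

lemma supports_ball {a c : E3} {b r : ℝ} (ha : ‖a‖ = 1) (hr : 0 ≤ r)
    (h : Supports a b (closedBall c r)) : |inner ℝ a c - b| = r := by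
  obtain ⟨⟨x, hx, hxb⟩, h2⟩ := h
  have hp : c + r • a ∈ closedBall c r := by
    rw [mem_closedBall, dist_eq_norm, add_sub_cancel_left, norm_smul, ha, mul_one, Real.norm_eq_abs,
      abs_of_nonneg hr]
  have hm : c - r • a ∈ closedBall c r := by
    rw [mem_closedBall, dist_eq_norm, sub_sub_cancel_left, norm_neg, norm_smul, ha, mul_one,
      Real.norm_eq_abs, abs_of_nonneg hr]
  have haa : inner ℝ a a = (1 : ℝ) := by rw [real_inner_self_eq_norm_sq, ha]; ring
  rcases h2 with h2 | h2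
  · have h3 := h2 _ hp
    rw [inner_add_right, inner_smul_right, haa, mul_one] at h3
    have h4 := le_of_mem_ball ha hx
    rw [hxb] at h4
    have : inner ℝ a c - b = -r := by linarith
    rw [this, abs_neg, abs_of_nonneg hr]
  · have h3 := h2 _ hm
    rw [inner_sub_right, inner_smul_right, haa, mul_one] at h3
    have h4 := ge_of_mem_ball ha hx
    rw [hxb] at h4
    have : inner ℝ a c - b = r := by linarith
    rw [this, abs_of_nonneg hr]

lemma supports_smul {a : E3} {b c : ℝ} (hc : 0 < c) {C : Set E3} (h : Supports a b C) :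
    Supports (c • a) (c * b) C := by
  obtain ⟨⟨x, hx, hxb⟩, h2⟩ := h
  refine ⟨⟨x, hx, by rw [real_inner_smul_left, hxb]⟩, ?_⟩
  rcases h2 with h2 | h2
  · left; intro x hx; rw [real_inner_smul_left]; exact mul_le_mul_of_nonneg_left (h2 x hx) hc.le
  · right; intro x hx; rw [real_inner_smul_left]; exact mul_le_mul_of_nonneg_left (h2 x hx) hc.le

lemma nondeg : Nondegenerate (Set.range X.F) := by
  rintro _ ⟨x, rfl⟩ _ ⟨y, rfl⟩ _ ⟨z, rfl⟩ _ ⟨u, rfl⟩ hxy hxz hxu hyz hyu hzu ⟨a0, b0, ha0, s1, s2, s3, s4⟩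
  have hpos : 0 < ‖a0‖⁻¹ := inv_pos.2 (norm_pos_iff.2 ha0)
  set a := ‖a0‖⁻¹ • a0 with haa
  set b := ‖a0‖⁻¹ * b0 with hbb
  have ha : ‖a‖ = 1 := by
    rw [haa, norm_smul, norm_inv, norm_norm, inv_mul_cancel₀ (norm_pos_iff.2 ha0).ne']
  have t1 := supports_ball ha (X.rad_pos x).le (supports_smul hpos s1)
  have t2 := supports_ball ha (X.rad_pos y).le (supports_smul hpos s2)
  have t3 := supports_ball ha (X.rad_pos z).le (supports_smul hpos s3)
  have t4 := supports_ball ha (X.rad_pos u).le (supports_smul hpos s4)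
  have hne : ∀ {p q : Option ι}, X.F p ≠ X.F q → p ≠ q := fun h h' => h (by rw [h'])
  have hnone : ∀ {b : ℝ}, |inner ℝ a (X.cen none) - b| = X.rad none → |b| = 1 := by
    intro b h
    have h' : |inner ℝ a (0 : E3) - b| = 1 := h
    rwa [inner_zero_right, zero_sub, abs_neg] at h'
  have hs : ∀ {p q : ι}, (some p : Option ι) ≠ some q → p ≠ q := fun h h' => h (by rw [h'])
  replace hxy := hne hxy
  replace hxz := hne hxz
  replace hxu := hne hxu
  replace hyz := hne hyz
  replace hyu := hne hyu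
  replace hzu := hne hzu
  rcases x with _ | i <;> rcases y with _ | j <;> rcases z with _ | k <;> rcases u with _ | l <;>
    first
      | exact absurd rfl hxy
      | exact absurd rfl hxz
      | exact absurd rfl hxu
      | exact absurd rfl hyz
      | exact absurd rfl hyu
      | exact absurd rfl hzu
      | exact X.n4 i j k l (hs hxy) (hs hxz) (hs hxu) (hs hyz) (hs hyu) (hs hzu) a b ha ⟨t1, t2, t3, t4⟩
      | exact X.n3 j k l (hs hyz) (hs hyu) (hs hzu) a b ha (hnone t1) ⟨t2, t3, t4⟩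
      | exact X.n3 i k l (hs hxz) (hs hxu) (hs hzu) a b ha (hnone t2) ⟨t1, t3, t4⟩
      | exact X.n3 i j l (hs hxy) (hs hxu) (hs hyu) a b ha (hnone t3) ⟨t1, t2, t4⟩
      | exact X.n3 i j k (hs hxy) (hs hxz) (hs hyz) a b ha (hnone t4) ⟨t1, t2, t3⟩

lemma proper [Finite ι] (𝒟 : Set (Set E3)) (h𝒟 : 𝒟 ⊆ Set.range X.F) (hne : 𝒟 ≠ Set.range X.F) :
    InConvexPosition 𝒟 := by
  intro C hC
  obtain ⟨x, rfl⟩ := h𝒟 hC
  set J : Set (Option ι) := {y | X.F y ∈ 𝒟} with hJ
  have hU : ⋃₀ 𝒟 = ⋃ y ∈ J, closedBall (X.cen y) (X.rad y) := by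
    ext v
    simp only [Set.mem_sUnion, Set.mem_iUnion]
    constructor
    · rintro ⟨C, hC, hv⟩
      obtain ⟨y, rfl⟩ := h𝒟 hC
      exact ⟨y, hC, hv⟩
    · rintro ⟨y, hy, hv⟩
      exact ⟨X.F y, hy, hv⟩
  rw [hU]
  cases x with
  | some i =>
    obtain ⟨a, ha, h1⟩ := X.exp1 i
    apply visible X.cen X.rad J (Set.toFinite _) (some i) hC X.hρ a ha
    intro y _ hy
    have := h1 y hy
    have h2 := X.hρ
    show _ < inner ℝ a (X.P i) + X.ρ
    linarith
  | none =>
    obtain ⟨y, hy⟩ : ∃ y, y ∉ J := by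
      by_contra hcon
      push Not at hcon
      apply hne
      apply Set.Subset.antisymm h𝒟
      rintro _ ⟨y, rfl⟩
      exact hcon y
    cases y with
    | none => exact absurd hC hy
    | some i =>
      obtain ⟨a, ha, h1⟩ := X.e3 i
      apply visible X.cen X.rad J (Set.toFinite _) none hC one_pos a ha
      intro z hz hzn
      cases z with
      | none => exact absurd rfl hzn
      | some j =>
        have hji : j ≠ i := by
          intro h
          rw [h] at hz
          exact hy hz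
        have := h1 j hji
        show inner ℝ a (X.P j) + X.ρ < inner ℝ a (0 : E3) + 1
        rw [inner_zero_right]; linarith

lemma whole : ¬ InConvexPosition (Set.range X.F) := by
  intro h
  obtain ⟨U, -, ⟨y, hyU, hy⟩, hsub⟩ := h (X.F none) ⟨none, rfl⟩
  have h1 := hsub ⟨hyU, hy⟩
  have h2 : y ∈ closedBall (0 : E3) 1 := by
    have : frontier (X.F none) ⊆ X.F none := isClosed_closedBall.frontier_subset
    exact this hy
  have h3 := X.e4 h2
  have h4 : convexHull ℝ (Set.range X.P) ⊆ convexHull ℝ (⋃₀ Set.range X.F) := by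
    apply convexHull_mono
    rintro _ ⟨i, rfl⟩
    exact ⟨X.F (some i), ⟨some i, rfl⟩, mem_closedBall_self X.hρ.le⟩
  exact h1.2 (interior_mono h4 h3)

end Config

end Pool.Agent.H227R3.Cvx
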