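import Mathlib

set_option autoImplicit false

/-!
Families of convex bodies in three-space: definitions.
-/

namespace Pool.Agent.H227R3.Cvx

/-- Euclidean three-space -/
abbrev E3 : Type := EuclideanSpace ℝ (Fin 3)

/-- a convex body: compact, convex, nonempty interior -/
def IsBody (C : Set E3) : Prop := IsCompact C ∧ Convex ℝ C ∧ (interior C).Nonempty

/-- `A ∪ B` and `C` lie strictly on different sides of the plane `⟪a, x⟫ = b`, for each three
distinct members `A`, `B`, `C` -/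
def Separable (F : Set (Set E3)) : Prop :=
  ∀ A ∈ F, ∀ B ∈ F, ∀ C ∈ F, A ≠ B → A ≠ C → B ≠ C →
    ∃ (a : E3) (b : ℝ), a ≠ 0 ∧ (∀ x ∈ A ∪ B, inner ℝ a x < b) ∧ (∀ x ∈ C, b < inner ℝ a x)

/-- the plane `⟪a, x⟫ = b` supports `C` -/
def Supports (a : E3) (b : ℝ) (C : Set E3) : Prop :=
  (∃ x ∈ C, inner ℝ a x = b) ∧ ((∀ x ∈ C, inner ℝ a x ≤ b) ∨ (∀ x ∈ C, b ≤ inner ℝ a x))

/-- no four members have a common supporting plane -/
def Nondegenerate (F : Set (Set E3)) : Prop :=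
  ∀ A ∈ F, ∀ B ∈ F, ∀ C ∈ F, ∀ D ∈ F, A ≠ B → A ≠ C → A ≠ D → B ≠ C → B ≠ D → C ≠ D →
    ¬ ∃ (a : E3) (b : ℝ), a ≠ 0 ∧ Supports a b A ∧ Supports a b B ∧ Supports a b C ∧ Supports a b D

/-- every member contributes a piece (a nonempty relatively open subset of its boundary) to the
boundary of the convex hull of the union -/
def InConvexPosition (F : Set (Set E3)) : Prop :=
  ∀ C ∈ F, ∃ U : Set E3, IsOpen U ∧ (U ∩ frontier C).Nonempty ∧
    U ∩ frontier C ⊆ frontier (convexHull ℝ (⋃₀ F))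

end Pool.Agent.H227R3.Cvx
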