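import Mathlib

set_option autoImplicit false

namespace Pool.Agent.H227R3.Cvx

open Real

/-- the angle of the `i`-th vertex -/
noncomputable def th (m : ℕ) (i : Fin m) : ℝ := 2 * π * (i : ℝ) / m

lemma half (m : ℕ) (k : ℕ) (hm : 3 ≤ m) (h1 : 1 ≤ k) (h2 : k ≤ m - 1) :
    cos (π * k / m) ^ 2 = cos (π / m) ^ 2 ∨ cos (π * k / m) ^ 2 ≤ cos (2 * π / m) ^ 2 := by
  have hm0 : (0 : ℝ) < m := by
    have : 0 < m := by omega
    exact_mod_cast this
  have hπ := pi_pos
  by_cases hk1 : k = 1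
  · left; rw [hk1]; norm_num
  by_cases hk2 : k = m - 1
  · left
    have : π * (k : ℝ) / m = π - π / m := by
      have : (k : ℝ) = m - 1 := by
        rw [hk2, Nat.cast_sub (by omega)]; norm_num
      rw [this]; field_simp
    rw [this, cos_pi_sub]; ring
  right
  have hm4 : 4 ≤ m := by omega
  have hm4' : (4 : ℝ) ≤ m := by exact_mod_cast hm4
  have hk3 : (2 : ℝ) ≤ k := by
    have : 2 ≤ k := by omega
    exact_mod_cast this
  have hk4 : (k : ℝ) ≤ m - 2 := by
    have : k + 2 ≤ m := by omega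
    have : (k : ℝ) + 2 ≤ m := by exact_mod_cast this
    linarith
  have a1 : 0 ≤ 2 * π / m := by positivity
  have a2 : 2 * π / m ≤ π * k / m := by
    apply div_le_div_of_nonneg_right _ hm0.le
    nlinarith
  have a3 : π * k / m ≤ π - 2 * π / m := by
    have : π - 2 * π / m = π * (m - 2) / m := by field_simp
    rw [this]
    apply div_le_div_of_nonneg_right _ hm0.le
    nlinarith
  have b1 : cos (π * k / m) ≤ cos (2 * π / m) :=
    cos_le_cos_of_nonneg_of_le_pi a1 (by linarith) a2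
  have b2 : cos (π - 2 * π / m) ≤ cos (π * k / m) :=
    cos_le_cos_of_nonneg_of_le_pi (by linarith) (by linarith) a3
  rw [cos_pi_sub] at b2
  rw [sq_le_sq]
  have hpos : 0 ≤ cos (2 * π / m) := by
    apply cos_nonneg_of_mem_Icc
    constructor
    · linarith
    · rw [div_le_iff₀ hm0]; nlinarith
  rw [abs_of_nonneg hpos, abs_le]
  exact ⟨b2, b1⟩

lemma T2 {m : ℕ} (hm : 3 ≤ m) {i j : Fin m} (hij : i ≠ j) :
    cos ((th m i - th m j) / 2) ^ 2 = cos (π / m) ^ 2 ∨
      cos ((th m i - th m j) / 2) ^ 2 ≤ cos (2 * π / m) ^ 2 := by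
  have gen : ∀ i j : Fin m, i < j → 
    (cos ((th m i - th m j) / 2) ^ 2 = cos (π / m) ^ 2 ∨
      cos ((th m i - th m j) / 2) ^ 2 ≤ cos (2 * π / m) ^ 2) := by
    intro i j hij
    have hlt : (i : ℕ) < (j : ℕ) := hij
    have h1 : (th m i - th m j) / 2 = -(π * ((j - i : ℕ) : ℝ) / m) := by
      unfold th
      rw [Nat.cast_sub hlt.le]; ring
    rw [h1, cos_neg]
    exact half m _ hm (by omega) (by have := j.2; omega)
  rcases lt_or_gt_of_ne hij with h | h
  · exact gen i j h
  · have := gen j i h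
    have h2 : (th m i - th m j) / 2 = -((th m j - th m i) / 2) := by ring
    rw [h2, cos_neg]
    exact this

lemma kap_pos {m : ℕ} (hm : 5 ≤ m) : 0 < cos (2 * π / m) ∧ cos (2 * π / m) < cos (π / m) ∧
    cos (π / m) < 1 := by
  have hm0 : (0 : ℝ) < m := by
    have : 0 < m := by omega
    exact_mod_cast this
  have hm5 : (5 : ℝ) ≤ m := by exact_mod_cast hm
  have hπ := pi_pos
  refine ⟨?_, ?_, ?_⟩
  · apply cos_pos_of_mem_Ioo
    constructor
    · have : 0 ≤ 2 * π / m := by positivity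
      linarith
    · rw [div_lt_iff₀ hm0]; nlinarith
  · apply cos_lt_cos_of_nonneg_of_le_pi
    · positivity
    · rw [div_le_iff₀ hm0]; nlinarith
    · apply div_lt_div_of_pos_right _ hm0
      linarith
  · have : cos (π / m) < cos 0 := by
      apply cos_lt_cos_of_nonneg_of_le_pi le_rfl
      · rw [div_le_iff₀ hm0]; nlinarith
      · positivity
    rwa [cos_zero] at this

lemma T1 {m : ℕ} (hm : 5 ≤ m) {i j : Fin m} (hij : i ≠ j) :
    cos (th m i - th m j) ≤ cos (2 * π / m) := by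
  have h1 : cos (th m i - th m j) = 2 * cos ((th m i - th m j) / 2) ^ 2 - 1 := by
    rw [← cos_two_mul]; ring_nf
  have h2 : cos (2 * π / m) = 2 * cos (π / m) ^ 2 - 1 := by
    rw [← cos_two_mul]; ring_nf
  obtain ⟨k1, k2, k3⟩ := kap_pos hm
  have h3 : cos (2 * π / m) ^ 2 ≤ cos (π / m) ^ 2 := by nlinarith
  rcases T2 (by omega) hij with h | h
  · rw [h1, h2, h]
  · rw [h1]; rw [h2] ; linarith

lemma T3 {m : ℕ} (hm : 5 ≤ m) (α β : ℝ) :
    ∃ i : Fin m, √(α ^ 2 + β ^ 2) * cos (π / m) ≤ α * cos (th m i) + β * sin (th m i) := by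
  have hm0 : (0 : ℝ) < m := by
    have : 0 < m := by omega
    exact_mod_cast this
  have hπ := pi_pos
  set z : ℂ := ⟨α, β⟩ with hz
  set φ := Complex.arg z with hφ
  have hr : ‖z‖ = √(α ^ 2 + β ^ 2) := by
    rw [Complex.norm_eq_sqrt_sq_add_sq]
  have hα : α = √(α ^ 2 + β ^ 2) * cos φ := by
    rw [← hr]
    have := Complex.norm_mul_cos_arg z
    rw [hφ, this]
  have hβ : β = √(α ^ 2 + β ^ 2) * sin φ := by
    rw [← hr]
    have := Complex.norm_mul_sin_arg z
    rw [hφ, this]
  set n : ℤ := round (φ * m / (2 * π)) with hn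
  have hmz : (0 : ℤ) < m := by
    have : 0 < m := by omega
    exact_mod_cast this
  have hmod := Int.emod_nonneg n hmz.ne'
  have hmod2 := Int.emod_lt_of_pos n hmz
  obtain ⟨k, hk⟩ := Int.eq_ofNat_of_zero_le hmod
  have hkm : k < m := by
    rw [hk] at hmod2; exact_mod_cast hmod2
  refine ⟨⟨k, hkm⟩, ?_⟩
  have hth : th m ⟨k, hkm⟩ = 2 * π * n / m - (n / m : ℤ) * (2 * π) := by
    have h1 : (n : ℤ) = k + m * (n / m) := by
      have := Int.emod_add_mul_ediv n m
      rw [hk] at this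
      exact this.symm
    have h2 : (n : ℝ) = k + m * ((n / m : ℤ) : ℝ) := by exact_mod_cast h1
    unfold th
    simp only
    rw [h2]
    field_simp
    ring
  have hcos : α * cos (th m ⟨k, hkm⟩) + β * sin (th m ⟨k, hkm⟩) =
      √(α ^ 2 + β ^ 2) * cos (φ - 2 * π * n / m) := by
    have h3 : cos (φ - 2 * π * n / m) = cos (φ - th m ⟨k, hkm⟩) := by
      rw [hth]
      have : φ - (2 * π * n / m - (n / m : ℤ) * (2 * π)) = (φ - 2 * π * n / m) + (n / m : ℤ) * (2 * π) := by
        ring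
      rw [this, cos_add_int_mul_two_pi]
    rw [h3, cos_sub]
    nth_rewrite 1 [hα]
    nth_rewrite 2 [hβ]
    ring
  rw [hcos]
  apply mul_le_mul_of_nonneg_left _ (sqrt_nonneg _)
  have habs : |φ - 2 * π * n / m| ≤ π / m := by
    have h4 := abs_sub_round (φ * m / (2 * π))
    rw [← hn] at h4
    have h5 : φ - 2 * π * n / m = (2 * π / m) * (φ * m / (2 * π) - n) := by
      field_simp
    rw [h5, abs_mul, abs_of_pos (by positivity)]
    calc 2 * π / m * |φ * m / (2 * π) - n| ≤ 2 * π / m * (1 / 2) := by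
          apply mul_le_mul_of_nonneg_left h4 (by positivity)
      _ = π / m := by ring
  rw [← cos_abs (φ - 2 * π * n / m)]
  apply cos_le_cos_of_nonneg_of_le_pi (abs_nonneg _) _ habs
  rw [div_le_iff₀ hm0]
  have : (1 : ℝ) ≤ m := by
    have : 1 ≤ m := by omega
    exact_mod_cast this
  nlinarith

/-- two points of the unit circle on a line `A c + B s = x` are equal or mirror images -/
lemma circ2 {A B x c s c' s' : ℝ} (hq : A ^ 2 + B ^ 2 ≠ 0) (h : c ^ 2 + s ^ 2 = 1)
    (h' : c' ^ 2 + s' ^ 2 = 1) (e : A * c + B * s = x) (e' : A * c' + B * s' = x) :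
    (c = c' ∧ s = s') ∨ (-B * c + A * s = -(-B * c' + A * s')) := by
  have h1 : (-B * c + A * s) ^ 2 = (-B * c' + A * s') ^ 2 := by
    have e1 : (-B * c + A * s) ^ 2 = (A ^ 2 + B ^ 2) * (c ^ 2 + s ^ 2) - (A * c + B * s) ^ 2 := by ring
    have e2 : (-B * c' + A * s') ^ 2 = (A ^ 2 + B ^ 2) * (c' ^ 2 + s' ^ 2) - (A * c' + B * s') ^ 2 := by
      ring
    rw [e1, e2, h, h', e, e']
  rcases sq_eq_sq_iff_eq_or_eq_neg.1 h1 with h2 | h2
  · left
    have h3 : (A ^ 2 + B ^ 2) * (c - c') = 0 := by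
      have : (A ^ 2 + B ^ 2) * (c - c') = A * ((A * c + B * s) - (A * c' + B * s')) -
        B * ((-B * c + A * s) - (-B * c' + A * s')) := by ring
      rw [this, e, e', h2]; ring
    have h4 : (A ^ 2 + B ^ 2) * (s - s') = 0 := by
      have : (A ^ 2 + B ^ 2) * (s - s') = B * ((A * c + B * s) - (A * c' + B * s')) +
        A * ((-B * c + A * s) - (-B * c' + A * s')) := by ring
      rw [this, e, e', h2]; ring
    constructor
    · rcases mul_eq_zero.1 h3 with h | h
      · exact absurd h hq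
      · linarith
    · rcases mul_eq_zero.1 h4 with h | h
      · exact absurd h hq
      · linarith
  · right; exact h2

lemma distinct {m : ℕ} (hm : 5 ≤ m) {i j : Fin m} (hij : i ≠ j) :
    ¬ (cos (th m i) = cos (th m j) ∧ sin (th m i) = sin (th m j)) := by
  rintro ⟨h1, h2⟩
  have h3 := T1 hm hij
  rw [cos_sub, h1, h2] at h3
  have h4 := sin_sq_add_cos_sq (th m j)
  obtain ⟨k1, k2, k3⟩ := kap_pos hm
  nlinarith

/-- three vertices do not lie on a line -/
lemma circ3 {m : ℕ} (hm : 5 ≤ m) {i j k : Fin m} (hij : i ≠ j) (hik : i ≠ k) (hjk : j ≠ k)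
    {A B x : ℝ} (e1 : A * cos (th m i) + B * sin (th m i) = x)
    (e2 : A * cos (th m j) + B * sin (th m j) = x)
    (e3 : A * cos (th m k) + B * sin (th m k) = x) : A = 0 ∧ B = 0 := by
  by_contra hcon
  have hq : A ^ 2 + B ^ 2 ≠ 0 := by
    intro h
    apply hcon
    constructor <;> nlinarith [sq_nonneg A, sq_nonneg B]
  have n1 : ∀ u : Fin m, cos (th m u) ^ 2 + sin (th m u) ^ 2 = 1 := by
    intro u; rw [add_comm]; exact sin_sq_add_cos_sq _
  rcases circ2 hq (n1 i) (n1 j) e1 e2 with h | h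
  · exact distinct hm hij h
  rcases circ2 hq (n1 i) (n1 k) e1 e3 with h' | h'
  · exact distinct hm hik h'
  rcases circ2 hq (n1 j) (n1 k) e2 e3 with h'' | h''
  · exact distinct hm hjk h''
  -- all y's vanish
  have y0 : -B * cos (th m i) + A * sin (th m i) = 0 := by linarith
  have y1 : -B * cos (th m j) + A * sin (th m j) = 0 := by linarith
  have h3 : (A ^ 2 + B ^ 2) * (cos (th m i) - cos (th m j)) = 0 := by
    have : (A ^ 2 + B ^ 2) * (cos (th m i) - cos (th m j)) =
      A * ((A * cos (th m i) + B * sin (th m i)) - (A * cos (th m j) + B * sin (th m j))) -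
      B * ((-B * cos (th m i) + A * sin (th m i)) - (-B * cos (th m j) + A * sin (th m j))) := by ring
    rw [this, e1, e2, y0, y1]; ring
  have h4 : (A ^ 2 + B ^ 2) * (sin (th m i) - sin (th m j)) = 0 := by
    have : (A ^ 2 + B ^ 2) * (sin (th m i) - sin (th m j)) =
      B * ((A * cos (th m i) + B * sin (th m i)) - (A * cos (th m j) + B * sin (th m j))) +
      A * ((-B * cos (th m i) + A * sin (th m i)) - (-B * cos (th m j) + A * sin (th m j))) := by ring
    rw [this, e1, e2, y0, y1]; ring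
  apply distinct hm hij
  constructor
  · rcases mul_eq_zero.1 h3 with h | h
    · exact absurd h hq
    · linarith
  · rcases mul_eq_zero.1 h4 with h | h
    · exact absurd h hq
    · linarith

end Pool.Agent.H227R3.Cvx
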