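import Pool.Agent.H227R3.Cvx.Perturb
import Pool.Agent.H227R3.Cvx.Trig

set_option autoImplicit false

namespace Pool.Agent.H227R3.Cvx

open Real

noncomputable def vec (x y z : ℝ) : E3 := !₂[x, y, z]

lemma inner_vec (a b c x y z : ℝ) : inner ℝ (vec a b c) (vec x y z) = a * x + b * y + c * z := by
  simp [vec, PiLp.inner_apply, Fin.sum_univ_three]
  ring

lemma vec_eta (a : E3) : a = vec (a 0) (a 1) (a 2) := by
  ext i; fin_cases i <;> rfl

lemma norm_vec_sq (a b c : ℝ) : ‖vec a b c‖ ^ 2 = a ^ 2 + b ^ 2 + c ^ 2 := by
  rw [← real_inner_self_eq_norm_sq, inner_vec]; ring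

lemma norm_vec_one {a b c : ℝ} (h : a ^ 2 + b ^ 2 + c ^ 2 = 1) : ‖vec a b c‖ = 1 := by
  have h1 := norm_vec_sq a b c
  rw [h] at h1
  have h2 := norm_nonneg (vec a b c)
  nlinarith [sq_nonneg (‖vec a b c‖ - 1)]

/-- normalisation -/
lemma normalise {d : E3} (hd : 1 ≤ ‖d‖) : ∃ a : E3, ‖a‖ = 1 ∧
    (∀ x, inner ℝ a x = inner ℝ d x / ‖d‖) := by
  have hpos : 0 < ‖d‖ := by linarith
  refine ⟨‖d‖⁻¹ • d, ?_, ?_⟩
  · rw [norm_smul, norm_inv, norm_norm, inv_mul_cancel₀ hpos.ne']
  · intro x
    rw [real_inner_smul_left]; field_simp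

lemma div_lt_one_of {v n : ℝ} (hn : 1 ≤ n) (hv : v < 1) : v / n < 1 := by
  rw [div_lt_one (by linarith)]; linarith

/-- the points -/
noncomputable def pts (m : ℕ) (H Q : ℝ) : Option (Fin m) → E3
  | none => vec 0 0 (-H)
  | some i => vec (Q * cos (th m i)) (Q * sin (th m i)) 2

theorem exists_pre (m : ℕ) (hm : 5 ≤ m) : Nonempty (Pre (Option (Fin m))) := by
  obtain ⟨k1, k2, k3⟩ := kap_pos hm
  set κ1 := cos (π / m) with hκ1
  set κ2 := cos (2 * π / m) with hκ2
  have k0 : 0 < κ1 := k1.trans k2
  set R : ℝ := 2 / (κ1 + κ2) with hR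
  have hRpos : 0 < R := by rw [hR]; positivity
  have hR1 : 1 < R * κ1 := by
    rw [hR, div_mul_eq_mul_div, lt_div_iff₀ (by positivity)]; linarith
  have hR2 : R * κ2 < 1 := by
    rw [hR, div_mul_eq_mul_div, div_lt_iff₀ (by positivity)]; linarith
  have hR2' : 0 < R * κ2 := by positivity
  have hRR : 1 < R := by nlinarith
  have hRκ : R * κ1 < R := by nlinarith
  -- choose H
  obtain ⟨H, hH1, hH2⟩ : ∃ H : ℝ, 1 < H ∧ 1 < R * κ1 * (1 - 1 / H ^ 2) := by
    obtain ⟨N, hN⟩ := exists_nat_gt (R * κ1 / (R * κ1 - 1) + 1)
    have hpos : 0 < R * κ1 - 1 := by linarith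
    have h1 : 0 < R * κ1 / (R * κ1 - 1) := by positivity
    have hN1 : (1 : ℝ) < N := by linarith
    refine ⟨N, hN1, ?_⟩
    have hNN : R * κ1 / (R * κ1 - 1) < (N : ℝ) ^ 2 := by nlinarith
    rw [div_lt_iff₀ hpos] at hNN
    have hN2 : (0 : ℝ) < (N : ℝ) ^ 2 := by positivity
    have : R * κ1 * (1 - 1 / (N : ℝ) ^ 2) - 1 = ((N : ℝ) ^ 2 * (R * κ1 - 1) - R * κ1) / (N : ℝ) ^ 2 := by
      field_simp
      ring
    have h3 : 0 < R * κ1 * (1 - 1 / (N : ℝ) ^ 2) - 1 := by
      rw [this]; apply div_pos _ hN2; linarith
    linarith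
  have hHpos : 0 < H := by linarith
  set Q : ℝ := R * (H + 2) / H with hQ
  have hQR : Q = R + 2 * R / H := by rw [hQ]; field_simp
  have hQpos : R < Q := by
    rw [hQR]; have : 0 < 2 * R / H := by positivity
    linarith
  have hQ0 : 0 < Q := by linarith
  have n1 : ∀ u : Fin m, cos (th m u) ^ 2 + sin (th m u) ^ 2 = 1 := by
    intro u; rw [add_comm]; exact sin_sq_add_cos_sq _
  have n2 : ∀ u v : Fin m, cos (th m u) * cos (th m v) + sin (th m u) * sin (th m v) =
      cos (th m u - th m v) := by
    intro u v; rw [cos_sub]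
  have hT1 : ∀ u v : Fin m, u ≠ v → cos (th m u) * cos (th m v) + sin (th m u) * sin (th m v) ≤ κ2 := by
    intro u v huv
    rw [n2]; exact T1 hm huv
  refine ⟨⟨pts m H Q, ?_, ?_, ?_, ?_, ?_⟩⟩
  · -- e1
    intro i
    cases i with
    | none =>
      refine ⟨vec 0 0 (-1), norm_vec_one (by norm_num), ?_, ?_⟩
      · intro j hj
        cases j with
        | none => exact absurd rfl hj
        | some j =>
          simp only [pts, inner_vec]
          linarith
      · simp only [pts, inner_vec]; linarith
    | some i =>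
      refine ⟨vec (cos (th m i)) (sin (th m i)) 0, norm_vec_one (by linarith [n1 i]), ?_, ?_⟩
      · intro j hj
        have e0 : cos (th m i) * (Q * cos (th m i)) + sin (th m i) * (Q * sin (th m i)) + 0 * 2 = Q := by
          have : cos (th m i) * (Q * cos (th m i)) + sin (th m i) * (Q * sin (th m i)) + 0 * 2 =
            Q * (cos (th m i) ^ 2 + sin (th m i) ^ 2) := by ring
          rw [this, n1]; ring
        cases j with
        | none =>
          simp only [pts, inner_vec]
          rw [e0]; linarith
        | some j =>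
          have hij : i ≠ j := fun h => hj (by rw [h])
          simp only [pts, inner_vec]
          rw [e0]
          have : cos (th m i) * (Q * cos (th m j)) + sin (th m i) * (Q * sin (th m j)) + 0 * 2 =
            Q * (cos (th m i) * cos (th m j) + sin (th m i) * sin (th m j)) := by ring
          rw [this]
          have := hT1 i j hij
          nlinarith
      · simp only [pts, inner_vec]
        have : cos (th m i) * (Q * cos (th m i)) + sin (th m i) * (Q * sin (th m i)) + 0 * 2 =
            Q * (cos (th m i) ^ 2 + sin (th m i) ^ 2) := by ring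
        rw [this, n1]; linarith
  · -- e2
    have wu : ∀ i : Fin m, ∃ a : E3, ‖a‖ = 1 ∧ 1 < inner ℝ a (pts m H Q none) ∧
        1 < inner ℝ a (pts m H Q (some i)) := by
      intro i
      set d : E3 := vec (cos (th m i)) (sin (th m i)) (-(R * κ1) / H) with hd
      have hd2 : ‖d‖ ^ 2 = 1 + (R * κ1) ^ 2 / H ^ 2 := by
        rw [hd, norm_vec_sq, n1 i]; field_simp
      have hd1 : 1 ≤ ‖d‖ := by
        have h0 : 0 ≤ (R * κ1) ^ 2 / H ^ 2 := by positivity
        have := norm_nonneg d
        nlinarith
      have hdlt : ‖d‖ < R * κ1 := by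
        have h0 : 0 < R * κ1 := by positivity
        have h1 : ‖d‖ ^ 2 < (R * κ1) ^ 2 := by
          rw [hd2]
          have e1 : (R * κ1) ^ 2 / H ^ 2 = (R * κ1) ^ 2 * (1 / H ^ 2) := by ring
          rw [e1]
          have e2 : (R * κ1) * (R * κ1 * (1 - 1 / H ^ 2)) > (R * κ1) * 1 :=
            mul_lt_mul_of_pos_left hH2 h0
          nlinarith
        exact lt_of_pow_lt_pow_left₀ 2 h0.le h1
      obtain ⟨a, ha, ha2⟩ := normalise hd1
      have hdpos : 0 < ‖d‖ := by linarith
      refine ⟨a, ha, ?_, ?_⟩
      · rw [ha2, lt_div_iff₀ hdpos, one_mul]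
        have : inner ℝ d (pts m H Q none) = R * κ1 := by
          simp only [pts, hd, inner_vec]; field_simp; ring
        rw [this]; exact hdlt
      · rw [ha2, lt_div_iff₀ hdpos, one_mul]
        have : inner ℝ d (pts m H Q (some i)) = Q - 2 * (R * κ1) / H := by
          simp only [pts, hd, inner_vec]
          have : cos (th m i) * (Q * cos (th m i)) + sin (th m i) * (Q * sin (th m i)) +
            -(R * κ1) / H * 2 = Q * (cos (th m i) ^ 2 + sin (th m i) ^ 2) - 2 * (R * κ1) / H := by ring
          rw [this, n1]; ring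
        rw [this, hQR]
        have e3 : R + 2 * R / H - 2 * (R * κ1) / H = R + 2 * (R - R * κ1) / H := by ring
        rw [e3]
        have e4 : 0 < 2 * (R - R * κ1) / H := by
          apply div_pos _ hHpos; linarith
        linarith
    intro i j hij
    cases i with
    | none =>
      cases j with
      | none => exact absurd rfl hij
      | some j => exact wu j
    | some i =>
      cases j with
      | none =>
        obtain ⟨a, ha, h1, h2⟩ := wu i
        exact ⟨a, ha, h2, h1⟩
      | some j =>
        refine ⟨vec 0 0 1, norm_vec_one (by norm_num), ?_, ?_⟩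
        · simp only [pts, inner_vec]; norm_num
        · simp only [pts, inner_vec]; norm_num
  · -- e3
    intro i
    cases i with
    | none =>
      refine ⟨vec 0 0 (-1), norm_vec_one (by norm_num), ?_⟩
      intro j hj
      cases j with
      | none => exact absurd rfl hj
      | some j => simp only [pts, inner_vec]; norm_num
    | some i =>
      set d : E3 := vec (cos (th m i)) (sin (th m i)) (-(R * κ2) / H) with hd
      have hd2 : ‖d‖ ^ 2 = 1 + (R * κ2) ^ 2 / H ^ 2 := by
        rw [hd, norm_vec_sq, n1 i]; field_simp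
      have hd1 : 1 ≤ ‖d‖ := by
        have h0 : 0 ≤ (R * κ2) ^ 2 / H ^ 2 := by positivity
        have := norm_nonneg d
        nlinarith
      obtain ⟨a, ha, ha2⟩ := normalise hd1
      refine ⟨a, ha, ?_⟩
      intro j hj
      rw [ha2]
      apply div_lt_one_of hd1
      cases j with
      | none =>
        have : inner ℝ d (pts m H Q none) = R * κ2 := by
          simp only [pts, hd, inner_vec]; field_simp; ring
        rw [this]; exact hR2
      | some j =>
        have hij : i ≠ j := fun h => hj (by rw [h])
        have : inner ℝ d (pts m H Q (some j)) =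
            Q * (cos (th m i) * cos (th m j) + sin (th m i) * sin (th m j)) - 2 * (R * κ2) / H := by
          simp only [pts, hd, inner_vec]; ring
        rw [this]
        have e1 : Q * (cos (th m i) * cos (th m j) + sin (th m i) * sin (th m j)) ≤ Q * κ2 :=
          mul_le_mul_of_nonneg_left (hT1 i j hij) hQ0.le
        have e2 : Q * κ2 - 2 * (R * κ2) / H = R * κ2 := by rw [hQR]; ring
        linarith
  · -- e4
    intro a ha
    obtain ⟨α, β, γ, rfl⟩ : ∃ α β γ, a = vec α β γ := ⟨_, _, _, vec_eta a⟩
    have hn : α ^ 2 + β ^ 2 + γ ^ 2 = 1 := by rw [← norm_vec_sq, ha]; norm_num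
    by_cases hγ : 1 < -(H * γ)
    · refine ⟨none, ?_⟩
      simp only [pts, inner_vec]; linarith
    · push Not at hγ
      obtain ⟨i, hi⟩ := T3 hm α β
      rw [← hκ1] at hi
      refine ⟨some i, ?_⟩
      simp only [pts, inner_vec]
      set s := √(α ^ 2 + β ^ 2) with hs
      have hs0 : 0 ≤ s := sqrt_nonneg _
      have hs2 : s ^ 2 = 1 - γ ^ 2 := by
        rw [hs, sq_sqrt (by positivity)]; linarith
      have hs1 : s ≤ 1 := by nlinarith [sq_nonneg γ]
      have e1 : α * (Q * cos (th m i)) + β * (Q * sin (th m i)) + γ * 2 =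
          Q * (α * cos (th m i) + β * sin (th m i)) + 2 * γ := by ring
      rw [e1]
      have e2 : Q * (s * κ1) ≤ Q * (α * cos (th m i) + β * sin (th m i)) :=
        mul_le_mul_of_nonneg_left hi hQ0.le
      have e3 : 1 < Q * (s * κ1) + 2 * γ := by
        have hQs : Q * (s * κ1) = R * κ1 * s + 2 / H * (R * κ1 * s) := by rw [hQR]; ring
        rcases le_or_gt 0 γ with h0 | h0
        · have hγ1 : γ ≤ 1 := by nlinarith
          have e4 : 1 ≤ s + γ := by nlinarith
          have e5 : 0 ≤ 2 / H * (R * κ1 * s) := by positivity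
          rw [hQs]
          rcases eq_or_lt_of_le hs0 with hs00 | hs00
          · have : 1 ≤ γ := by linarith
            have : 0 ≤ R * κ1 * s := by positivity
            linarith
          · have : s < R * κ1 * s := by nlinarith
            linarith
        · have hss : 1 - 1 / H ^ 2 ≤ s := by
            have e6 : γ ^ 2 ≤ 1 / H ^ 2 := by
              rw [le_div_iff₀ (by positivity)]
              have : -1 ≤ H * γ := by linarith
              have : H * γ < 0 := by nlinarith
              have : (H * γ) ^ 2 ≤ 1 := by nlinarith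
              nlinarith
            nlinarith
          have e7 : 1 < R * κ1 * s := by
            have : R * κ1 * (1 - 1 / H ^ 2) ≤ R * κ1 * s :=
              mul_le_mul_of_nonneg_left hss (by positivity)
            linarith
          have e8 : -(1 / H) ≤ γ := by
            have : -1 ≤ H * γ := by linarith
            have h9 : -(1 / H) = (-1) / H := by ring
            rw [h9, div_le_iff₀ hHpos]; linarith
          have e9 : 2 / H < 2 / H * (R * κ1 * s) := by
            have : 0 < 2 / H := by positivity
            nlinarith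
          have e10 : 2 / H = 2 * (1 / H) := by ring
          rw [hQs]
          linarith
      linarith
  · -- n3
    have three : ∀ i j k : Fin m, i ≠ j → i ≠ k → j ≠ k → ∀ a : E3, ‖a‖ = 1 →
        ¬ (inner ℝ a (pts m H Q (some i)) = 1 ∧ inner ℝ a (pts m H Q (some j)) = 1 ∧
          inner ℝ a (pts m H Q (some k)) = 1) := by
      rintro i j k hij hik hjk a ha ⟨h1, h2, h3⟩
      obtain ⟨α, β, γ, rfl⟩ : ∃ α β γ, a = vec α β γ := ⟨_, _, _, vec_eta a⟩
      have hn : α ^ 2 + β ^ 2 + γ ^ 2 = 1 := by rw [← norm_vec_sq, ha]; norm_num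
      simp only [pts, inner_vec] at h1 h2 h3
      obtain ⟨hA, hB⟩ := circ3 hm hij hik hjk (A := α * Q) (B := β * Q) (x := 1 - γ * 2)
        (by linarith) (by linarith) (by linarith)
      have hα : α = 0 := by
        rcases mul_eq_zero.1 hA with h | h
        · exact h
        · exact absurd h hQ0.ne'
      have hβ : β = 0 := by
        rcases mul_eq_zero.1 hB with h | h
        · exact h
        · exact absurd h hQ0.ne'
      rw [hα, hβ] at h1 hn
      have : γ = 1 / 2 := by linarith
      rw [this] at hn
      norm_num at hn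
    have two : ∀ i j : Fin m, i ≠ j → ∀ a : E3, ‖a‖ = 1 →
        ¬ (inner ℝ a (pts m H Q none) = 1 ∧ inner ℝ a (pts m H Q (some i)) = 1 ∧
          inner ℝ a (pts m H Q (some j)) = 1) := by
      rintro i j hij a ha ⟨h1, h2, h3⟩
      obtain ⟨α, β, γ, rfl⟩ : ∃ α β γ, a = vec α β γ := ⟨_, _, _, vec_eta a⟩
      have hn : α ^ 2 + β ^ 2 + γ ^ 2 = 1 := by rw [← norm_vec_sq, ha]; norm_num
      simp only [pts, inner_vec] at h1 h2 h3
      have hγ : γ = -(1 / H) := by field_simp; linarith
      have hx : ∀ u : Fin m, α * (Q * cos (th m u)) + β * (Q * sin (th m u)) + γ * 2 = 1 →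
          α * cos (th m u) + β * sin (th m u) = 1 / R := by
        intro u hu
        rw [hγ, hQ] at hu
        have : (α * cos (th m u) + β * sin (th m u)) * (R * (H + 2) / H) = (H + 2) / H := by
          have e : (H + 2) / H = 1 + 2 / H := by field_simp
          rw [e]
          have e' : 1 + 2 / H = α * (R * (H + 2) / H * cos (th m u)) + β * (R * (H + 2) / H * sin (th m u)) := by
            have : 2 / H = 2 * (1 / H) := by ring
            rw [this]; linarith
          rw [e']; ring
        have hH2pos : 0 < (H + 2) / H := by positivity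
        have e2 : (α * cos (th m u) + β * sin (th m u)) * (R * (H + 2) / H) =
          ((α * cos (th m u) + β * sin (th m u)) * R) * ((H + 2) / H) := by ring
        rw [e2] at this
        have e3 : (α * cos (th m u) + β * sin (th m u)) * R = 1 := by
          have h5 : ((α * cos (th m u) + β * sin (th m u)) * R - 1) * ((H + 2) / H) = 0 := by
            rw [sub_mul, this]; ring
          rcases mul_eq_zero.1 h5 with h | h
          · linarith
          · exact absurd h hH2pos.ne'
        field_simp
        exact e3
      have x1 := hx i h2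
      have x2 := hx j h3
      have hq : α ^ 2 + β ^ 2 = 1 - 1 / H ^ 2 := by
        have : γ ^ 2 = 1 / H ^ 2 := by rw [hγ]; field_simp
        linarith
      have hqpos : 0 < α ^ 2 + β ^ 2 := by
        rw [hq]
        by_contra hcon
        push Not at hcon
        have : R * κ1 * (1 - 1 / H ^ 2) ≤ 0 := mul_nonpos_of_nonneg_of_nonpos (by positivity) hcon
        linarith
      have hq1 : α ^ 2 + β ^ 2 ≤ 1 := by nlinarith [sq_nonneg γ]
      rcases circ2 hqpos.ne' (n1 i) (n1 j) x1 x2 with h | h
      · exact distinct hm hij h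
      -- q (1 + C) = 2 x^2
      have id1 : (α ^ 2 + β ^ 2) * (1 + cos (th m i - th m j)) = 2 * (1 / R) ^ 2 := by
        have g1 : (α ^ 2 + β ^ 2) * (cos (th m i) * cos (th m j) + sin (th m i) * sin (th m j)) =
          (α * cos (th m i) + β * sin (th m i)) * (α * cos (th m j) + β * sin (th m j)) +
          (-β * cos (th m i) + α * sin (th m i)) * (-β * cos (th m j) + α * sin (th m j)) := by ring
        have g2 : (-β * cos (th m i) + α * sin (th m i)) ^ 2 =
          (α ^ 2 + β ^ 2) * (cos (th m i) ^ 2 + sin (th m i) ^ 2) -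
            (α * cos (th m i) + β * sin (th m i)) ^ 2 := by ring
        have g3 : (-β * cos (th m i) + α * sin (th m i)) * (-β * cos (th m j) + α * sin (th m j)) =
          -(-β * cos (th m i) + α * sin (th m i)) ^ 2 := by
          have : (-β * cos (th m j) + α * sin (th m j)) = -(-β * cos (th m i) + α * sin (th m i)) := by
            linarith
          rw [this]; ring
        rw [g3, g2, n1, x1, x2] at g1
        rw [← n2, mul_add, g1]; ring
      have id2 : 1 + cos (th m i - th m j) = 2 * cos ((th m i - th m j) / 2) ^ 2 := by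
        have : cos (th m i - th m j) = 2 * cos ((th m i - th m j) / 2) ^ 2 - 1 := by
          rw [← cos_two_mul]; ring_nf
        linarith
      have id3 : (α ^ 2 + β ^ 2) * cos ((th m i - th m j) / 2) ^ 2 * R ^ 2 = 1 := by
        rw [id2] at id1
        have : (α ^ 2 + β ^ 2) * cos ((th m i - th m j) / 2) ^ 2 = (1 / R) ^ 2 := by linarith
        rw [this]; field_simp
      rcases T2 (by omega) hij with h' | h'
      · rw [h', hq, ← hκ1] at id3
        have : 1 < (R * κ1) * (R * κ1 * (1 - 1 / H ^ 2)) := by nlinarith
        nlinarith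
      · rw [← hκ2] at h'
        have e1 : (α ^ 2 + β ^ 2) * cos ((th m i - th m j) / 2) ^ 2 * R ^ 2 ≤ 1 * κ2 ^ 2 * R ^ 2 := by
          apply mul_le_mul_of_nonneg_right _ (by positivity)
          apply mul_le_mul hq1 h' (by positivity) (by norm_num)
        have e2 : κ2 ^ 2 * R ^ 2 < 1 := by
          have : κ2 ^ 2 * R ^ 2 = (R * κ2) * (R * κ2) := by ring
          rw [this]; nlinarith
        linarith
    intro i j k hij hik hjk a ha
    cases i with
    | none =>
      cases j with
      | none => exact absurd rfl hij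
      | some j =>
        cases k with
        | none => exact absurd rfl hik
        | some k => exact two j k (fun h => hjk (by rw [h])) a ha
    | some i =>
      cases j with
      | none =>
        cases k with
        | none => exact absurd rfl hjk
        | some k =>
          rintro ⟨h1, h2, h3⟩
          exact two i k (fun h => hik (by rw [h])) a ha ⟨h2, h1, h3⟩
      | some j =>
        cases k with
        | none =>
          rintro ⟨h1, h2, h3⟩
          exact two i j (fun h => hij (by rw [h])) a ha ⟨h3, h1, h2⟩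
        | some k =>
          exact three i j k (fun h => hij (by rw [h])) (fun h => hik (by rw [h]))
            (fun h => hjk (by rw [h])) a ha

end Pool.Agent.H227R3.Cvx
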