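import Pool.Agent.H227R3.Cvx.Core

set_option autoImplicit false

namespace Pool.Agent.H227R3.Cvx

open Metric Topology

/-- a configuration of points satisfying the strict conditions with radius zero -/
structure Pre (ι : Type) where
  P : ι → E3
  e1 : ∀ i, ∃ a : E3, ‖a‖ = 1 ∧ (∀ j, j ≠ i → inner ℝ a (P j) < inner ℝ a (P i)) ∧
    1 < inner ℝ a (P i)
  e2 : ∀ i j, i ≠ j → ∃ a : E3, ‖a‖ = 1 ∧ 1 < inner ℝ a (P i) ∧ 1 < inner ℝ a (P j)
  e3 : ∀ i, ∃ a : E3, ‖a‖ = 1 ∧ ∀ j, j ≠ i → inner ℝ a (P j) < 1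
  e4 : ∀ a : E3, ‖a‖ = 1 → ∃ i, 1 < inner ℝ a (P i)
  n3 : ∀ i j k, i ≠ j → i ≠ k → j ≠ k → ∀ a : E3, ‖a‖ = 1 →
    ¬ (inner ℝ a (P i) = 1 ∧ inner ℝ a (P j) = 1 ∧ inner ℝ a (P k) = 1)

lemma ball_sub_hull {ι : Type} [Finite ι] (P : ι → E3)
    (h : ∀ a : E3, ‖a‖ = 1 → ∃ i, 1 < inner ℝ a (P i)) :
    closedBall (0 : E3) 1 ⊆ interior (convexHull ℝ (Set.range P)) := by
  have hev : ∀ᶠ ε : ℝ in 𝓝 0, ∀ a ∈ sphere (0 : E3) 1, ∃ i, 1 + ε < inner ℝ a (P i) := by
    apply (isCompact_sphere (0 : E3) 1).eventually_forall_of_forall_eventually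
    intro a ha
    have ha1 : ‖a‖ = 1 := by simpa using ha
    obtain ⟨i, hi⟩ := h a ha1
    have hc1 : Continuous (fun z : ℝ × E3 => 1 + z.1) := by fun_prop
    have hc2 : Continuous (fun z : ℝ × E3 => inner ℝ z.2 (P i)) := by fun_prop
    have := (hc1.tendsto (0, a)).eventually_lt (hc2.tendsto (0, a)) (by simpa using hi)
    exact this.mono (fun z hz => ⟨i, hz⟩)
  have hev2 : ∀ᶠ ε : ℝ in 𝓝[>] 0, ∀ a ∈ sphere (0 : E3) 1, ∃ i, 1 + ε < inner ℝ a (P i) :=
    hev.filter_mono nhdsWithin_le_nhds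
  obtain ⟨ε, hε, hεpos⟩ := (hev2.and self_mem_nhdsWithin).exists
  have hεpos' : 0 < ε := hεpos
  have hsub : ball (0 : E3) (1 + ε) ⊆ convexHull ℝ (Set.range P) := by
    intro x hx
    by_contra hxK
    have hK : IsClosed (convexHull ℝ (Set.range P)) :=
      ((Set.finite_range P).isCompact_convexHull (𝕜 := ℝ)).isClosed
    obtain ⟨f, u, hu1, hu2⟩ := geometric_hahn_banach_closed_point
      (convex_convexHull ℝ (Set.range P)) hK hxK
    set a0 : E3 := (InnerProductSpace.toDual ℝ E3).symm f with ha0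
    have hf : ∀ y, f y = inner ℝ a0 y := by
      intro y
      rw [ha0, InnerProductSpace.toDual_symm_apply]
    have hne : a0 ≠ 0 := by
      intro h0
      obtain ⟨i, -⟩ := hε (EuclideanSpace.single 0 1) (by simp)
      have h1 := hu1 (P i) (subset_convexHull ℝ _ ⟨i, rfl⟩)
      rw [hf, h0, inner_zero_left] at h1
      rw [hf, h0, inner_zero_left] at hu2
      linarith
    have hpos : 0 < ‖a0‖ := norm_pos_iff.2 hne
    have hunit : ‖‖a0‖⁻¹ • a0‖ = 1 := by
      rw [norm_smul, norm_inv, norm_norm, inv_mul_cancel₀ hpos.ne']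
    obtain ⟨i, hi⟩ := hε (‖a0‖⁻¹ • a0) (by simpa using hunit)
    have h1 := hu1 (P i) (subset_convexHull ℝ _ ⟨i, rfl⟩)
    have h2 : inner ℝ a0 (P i) < inner ℝ a0 x := by rw [← hf, ← hf]; exact h1.trans hu2
    have h3 : inner ℝ (‖a0‖⁻¹ • a0) (P i) < inner ℝ (‖a0‖⁻¹ • a0) x := by
      rw [real_inner_smul_left, real_inner_smul_left]
      exact mul_lt_mul_of_pos_left h2 (inv_pos.2 hpos)
    have h4 := real_inner_le_norm (‖a0‖⁻¹ • a0) x
    rw [hunit, one_mul] at h4
    rw [mem_ball_zero_iff] at hx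
    linarith
  intro x hx
  have hx' : x ∈ ball (0 : E3) (1 + ε) := by
    rw [mem_ball_zero_iff]
    rw [mem_closedBall_zero_iff] at hx
    linarith
  exact interior_maximal hsub isOpen_ball hx'

/-- a point on the moment curve -/
def mom (x : ℝ) : E3 := !₂[x, x ^ 2, x ^ 3]

/-- matrix whose rows are three differences -/
def dmat (u v w : E3) : Matrix (Fin 3) (Fin 3) ℝ := ![⇑u, ⇑v, ⇑w]

lemma dmat_mulVec (u v w a : E3) : (dmat u v w).mulVec ⇑a = ![inner ℝ a u, inner ℝ a v, inner ℝ a w] := by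
  ext i
  fin_cases i <;> simp [dmat, Matrix.mulVec, dotProduct, Fin.sum_univ_three, PiLp.inner_apply] 

lemma det_mom (x y z w : ℝ) (h1 : x ≠ y) (h2 : x ≠ z) (h3 : x ≠ w) (h4 : y ≠ z) (h5 : y ≠ w)
    (h6 : z ≠ w) : (dmat (mom y - mom x) (mom z - mom x) (mom w - mom x)).det ≠ 0 := by
  have : (dmat (mom y - mom x) (mom z - mom x) (mom w - mom x)).det =
      (y - x) * (z - x) * (w - x) * (z - y) * (w - y) * (w - z) := by
    simp [dmat, mom, Matrix.det_fin_three]
    ring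
  rw [this]
  simp only [ne_eq, mul_eq_zero, sub_eq_zero, not_or]
  exact ⟨⟨⟨⟨⟨h1.symm, h2.symm⟩, h3.symm⟩, h4.symm⟩, h5.symm⟩, h6.symm⟩

lemma det_generic (A B : Matrix (Fin 3) (Fin 3) ℝ) (hB : B.det ≠ 0) :
    ∀ᶠ t : ℝ in 𝓝[>] 0, (A + t • B).det ≠ 0 := by
  set p : Polynomial ℝ := (((Polynomial.X : Polynomial ℝ) • B.map Polynomial.C + A.map Polynomial.C)).det
    with hp
  have hcoeff : p.coeff 3 = B.det := by
    have := Polynomial.coeff_det_X_add_C_card B A
    simpa using this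
  have hp0 : p ≠ 0 := by
    intro h
    rw [h] at hcoeff
    simp at hcoeff
    exact hB hcoeff.symm
  have heval : ∀ t : ℝ, p.eval t = (A + t • B).det := by
    intro t
    rw [hp, ← Polynomial.coe_evalRingHom, RingHom.map_det]
    congr 1
    ext i j
    simp
    ring
  have hfin : {t : ℝ | p.eval t = 0}.Finite := by
    have := Polynomial.finite_setOf_isRoot hp0
    exact this
  have h2 : ({t : ℝ | p.eval t = 0} \ {0})ᶜ ∈ 𝓝 (0 : ℝ) := by
    apply IsOpen.mem_nhds
    · exact (hfin.subset Set.diff_subset).isClosed.isOpen_compl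
    · simp
  have h3 : ∀ᶠ t : ℝ in 𝓝[>] 0, t ∈ ({t : ℝ | p.eval t = 0} \ {0})ᶜ :=
    Filter.Eventually.filter_mono nhdsWithin_le_nhds h2
  filter_upwards [h3, self_mem_nhdsWithin] with t ht htpos
  rw [← heval]
  intro h
  apply ht
  exact ⟨h, ne_of_gt htpos⟩

theorem exists_config {ι : Type} [Finite ι] (x : ι → ℝ) (hx : Function.Injective x) (X : Pre ι) :
    Nonempty (Config ι) := by
  -- the perturbed points
  set Q : ℝ → ι → E3 := fun t i => X.P i + t • mom (x i) with hQ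
  have hQ0 : ∀ i, Q 0 i = X.P i := by intro i; simp [hQ]
  have hQc : ∀ i, Continuous (fun z : ℝ × ℝ => Q z.1 i) := by
    intro i; simp only [hQ]; fun_prop
  have hin : ∀ (a : E3) i, Continuous (fun z : ℝ × ℝ => inner ℝ a (Q z.1 i)) := by
    intro a i; have := hQc i; fun_prop
  have hρ : Continuous (fun z : ℝ × ℝ => z.2) := by fun_prop
  -- e1
  have E1 : ∀ᶠ z : ℝ × ℝ in 𝓝 (0, 0), ∀ i, ∃ a : E3, ‖a‖ = 1 ∧
      (∀ j, j ≠ i → inner ℝ a (Q z.1 j) + z.2 < inner ℝ a (Q z.1 i) - z.2) ∧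
      1 < inner ℝ a (Q z.1 i) - z.2 := by
    rw [Filter.eventually_all]
    intro i
    obtain ⟨a, ha, h1, h2⟩ := X.e1 i
    have k1 : ∀ᶠ z : ℝ × ℝ in 𝓝 (0, 0), ∀ j, j ≠ i →
        inner ℝ a (Q z.1 j) + z.2 < inner ℝ a (Q z.1 i) - z.2 := by
      rw [Filter.eventually_all]
      intro j
      by_cases hji : j = i
      · exact Filter.Eventually.of_forall (fun z h => absurd hji h)
      · have := (((hin a j).add hρ).tendsto (0, 0)).eventually_lt (((hin a i).sub hρ).tendsto (0, 0))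
          (by simpa [hQ0] using h1 j hji)
        exact this.mono (fun z hz _ => hz)
    have k2 : ∀ᶠ z : ℝ × ℝ in 𝓝 (0, 0), 1 < inner ℝ a (Q z.1 i) - z.2 := by
      have := ((continuous_const (y := (1:ℝ))).tendsto ((0 : ℝ), (0 : ℝ))).eventually_lt
        (((hin a i).sub hρ).tendsto (0, 0)) (by simpa [hQ0] using h2)
      exact this
    filter_upwards [k1, k2] with z z1 z2
    exact ⟨a, ha, z1, z2⟩
  have E2 : ∀ᶠ z : ℝ × ℝ in 𝓝 (0, 0), ∀ i j, i ≠ j → ∃ a : E3, ‖a‖ = 1 ∧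
      1 < inner ℝ a (Q z.1 i) - z.2 ∧ 1 < inner ℝ a (Q z.1 j) - z.2 := by
    rw [Filter.eventually_all]
    intro i
    rw [Filter.eventually_all]
    intro j
    by_cases hij : i = j
    · exact Filter.Eventually.of_forall (fun z h => absurd hij h)
    · obtain ⟨a, ha, h1, h2⟩ := X.e2 i j hij
      have k1 := ((continuous_const (y := (1:ℝ))).tendsto ((0 : ℝ), (0 : ℝ))).eventually_lt
        (((hin a i).sub hρ).tendsto (0, 0)) (by simpa [hQ0] using h1)
      have k2 := ((continuous_const (y := (1:ℝ))).tendsto ((0 : ℝ), (0 : ℝ))).eventually_lt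
        (((hin a j).sub hρ).tendsto (0, 0)) (by simpa [hQ0] using h2)
      filter_upwards [k1, k2] with z z1 z2 _
      exact ⟨a, ha, z1, z2⟩
  have E3' : ∀ᶠ z : ℝ × ℝ in 𝓝 (0, 0), ∀ i, ∃ a : E3, ‖a‖ = 1 ∧
      ∀ j, j ≠ i → inner ℝ a (Q z.1 j) + z.2 < 1 := by
    rw [Filter.eventually_all]
    intro i
    obtain ⟨a, ha, h1⟩ := X.e3 i
    have k1 : ∀ᶠ z : ℝ × ℝ in 𝓝 (0, 0), ∀ j, j ≠ i → inner ℝ a (Q z.1 j) + z.2 < 1 := by
      rw [Filter.eventually_all]
      intro j
      by_cases hji : j = i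
      · exact Filter.Eventually.of_forall (fun z h => absurd hji h)
      · have := (((hin a j).add hρ).tendsto (0, 0)).eventually_lt
          ((continuous_const (y := (1:ℝ))).tendsto ((0 : ℝ), (0 : ℝ))) (by simpa [hQ0] using h1 j hji)
        exact this.mono (fun z hz _ => hz)
    filter_upwards [k1] with z z1
    exact ⟨a, ha, z1⟩
  have hin2 : ∀ i, Continuous (fun z : (ℝ × ℝ) × E3 => inner ℝ z.2 (Q z.1.1 i)) := by
    intro i
    simp only [hQ]
    fun_prop
  have E4 : ∀ᶠ z : ℝ × ℝ in 𝓝 (0, 0), ∀ a ∈ sphere (0 : E3) 1, ∃ i, 1 < inner ℝ a (Q z.1 i) := by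
    apply (isCompact_sphere (0 : E3) 1).eventually_forall_of_forall_eventually
    intro a ha
    have ha1 : ‖a‖ = 1 := by simpa using ha
    obtain ⟨i, hi⟩ := X.e4 a ha1
    have := ((continuous_const (y := (1:ℝ))).tendsto (((0 : ℝ), (0 : ℝ)), a)).eventually_lt
      ((hin2 i).tendsto ((0, 0), a)) (by simpa [hQ0] using hi)
    exact this.mono (fun z hz => ⟨i, hz⟩)
  have N3 : ∀ᶠ z : ℝ × ℝ in 𝓝 (0, 0), ∀ i j k, i ≠ j → i ≠ k → j ≠ k → ∀ a ∈ sphere (0 : E3) 1,
      ¬ (|inner ℝ a (Q z.1 i) - 1| = z.2 ∧ |inner ℝ a (Q z.1 j) - 1| = z.2 ∧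
        |inner ℝ a (Q z.1 k) - 1| = z.2) := by
    rw [Filter.eventually_all]
    intro i
    rw [Filter.eventually_all]
    intro j
    rw [Filter.eventually_all]
    intro k
    by_cases hij : i = j
    · exact Filter.Eventually.of_forall (fun z h => absurd hij h)
    by_cases hik : i = k
    · exact Filter.Eventually.of_forall (fun z _ h => absurd hik h)
    by_cases hjk : j = k
    · exact Filter.Eventually.of_forall (fun z _ _ h => absurd hjk h)
    have key : ∀ᶠ z : ℝ × ℝ in 𝓝 (0, 0), ∀ a ∈ sphere (0 : E3) 1,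
      ¬ (|inner ℝ a (Q z.1 i) - 1| = z.2 ∧ |inner ℝ a (Q z.1 j) - 1| = z.2 ∧
        |inner ℝ a (Q z.1 k) - 1| = z.2) := by
      apply (isCompact_sphere (0 : E3) 1).eventually_forall_of_forall_eventually
      intro a ha
      have ha1 : ‖a‖ = 1 := by simpa using ha
      have hn := X.n3 i j k hij hik hjk a ha1
      have hgen : ∀ l, inner ℝ a (X.P l) ≠ 1 →
          ∀ᶠ z : (ℝ × ℝ) × E3 in 𝓝 ((0, 0), a), |inner ℝ z.2 (Q z.1.1 l) - 1| ≠ z.1.2 := by
        intro l hl
        have hc1 : Continuous (fun z : (ℝ × ℝ) × E3 => |inner ℝ z.2 (Q z.1.1 l) - 1|) := by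
          have := hin2 l
          fun_prop
        have hc2 : Continuous (fun z : (ℝ × ℝ) × E3 => z.1.2) := by fun_prop
        have := (hc2.tendsto ((0, 0), a)).eventually_lt (hc1.tendsto ((0, 0), a)) (by
          simp only [hQ0]
          exact abs_pos.2 (sub_ne_zero.2 hl))
        exact this.mono (fun z hz => ne_of_gt hz)
      by_cases h1 : inner ℝ a (X.P i) = 1
      · by_cases h2 : inner ℝ a (X.P j) = 1
        · have h3 : inner ℝ a (X.P k) ≠ 1 := fun h3 => hn ⟨h1, h2, h3⟩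
          exact (hgen k h3).mono (fun z hz h => hz h.2.2)
        · exact (hgen j h2).mono (fun z hz h => hz h.2.1)
      · exact (hgen i h1).mono (fun z hz h => hz h.1)
    exact key.mono (fun z hz _ _ _ => hz)
  have hopen := (E1.and (E2.and (E3'.and (E4.and N3)))).curry_nhds
  have hopen' := hopen.filter_mono (nhdsWithin_le_nhds (s := Set.Ioi (0 : ℝ)))
  -- genericity
  have G : ∀ᶠ t : ℝ in 𝓝[>] 0, ∀ i j k l, i ≠ j → i ≠ k → i ≠ l → j ≠ k → j ≠ l → k ≠ l →
      (dmat (Q t j - Q t i) (Q t k - Q t i) (Q t l - Q t i)).det ≠ 0 := by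
    rw [Filter.eventually_all]; intro i
    rw [Filter.eventually_all]; intro j
    rw [Filter.eventually_all]; intro k
    rw [Filter.eventually_all]; intro l
    by_cases hij : i = j
    · exact Filter.Eventually.of_forall (fun z h => absurd hij h)
    by_cases hik : i = k
    · exact Filter.Eventually.of_forall (fun z _ h => absurd hik h)
    by_cases hil : i = l
    · exact Filter.Eventually.of_forall (fun z _ _ h => absurd hil h)
    by_cases hjk : j = k
    · exact Filter.Eventually.of_forall (fun z _ _ _ h => absurd hjk h)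
    by_cases hjl : j = l
    · exact Filter.Eventually.of_forall (fun z _ _ _ _ h => absurd hjl h)
    by_cases hkl : k = l
    · exact Filter.Eventually.of_forall (fun z _ _ _ _ _ h => absurd hkl h)
    have := det_generic (dmat (X.P j - X.P i) (X.P k - X.P i) (X.P l - X.P i))
      (dmat (mom (x j) - mom (x i)) (mom (x k) - mom (x i)) (mom (x l) - mom (x i)))
      (det_mom _ _ _ _ (hx.ne hij) (hx.ne hik) (hx.ne hil) (hx.ne hjk) (hx.ne hjl) (hx.ne hkl))
    refine this.mono (fun t ht _ _ _ _ _ _ => ?_)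
    convert ht using 2
    ext u v
    fin_cases u <;> simp [dmat, hQ] <;> ring
  obtain ⟨t, ht1, ht2⟩ := (hopen'.and G).exists
  -- now the radius
  have N4 : ∀ᶠ ρ : ℝ in 𝓝 0, ∀ i j k l, i ≠ j → i ≠ k → i ≠ l → j ≠ k → j ≠ l → k ≠ l →
      ∀ a ∈ sphere (0 : E3) 1, 2 * ρ < |inner ℝ a (Q t j - Q t i)| ∨
        2 * ρ < |inner ℝ a (Q t k - Q t i)| ∨ 2 * ρ < |inner ℝ a (Q t l - Q t i)| := by
    rw [Filter.eventually_all]; intro i
    rw [Filter.eventually_all]; intro j
    rw [Filter.eventually_all]; intro k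
    rw [Filter.eventually_all]; intro l
    by_cases hij : i = j
    · exact Filter.Eventually.of_forall (fun z h => absurd hij h)
    by_cases hik : i = k
    · exact Filter.Eventually.of_forall (fun z _ h => absurd hik h)
    by_cases hil : i = l
    · exact Filter.Eventually.of_forall (fun z _ _ h => absurd hil h)
    by_cases hjk : j = k
    · exact Filter.Eventually.of_forall (fun z _ _ _ h => absurd hjk h)
    by_cases hjl : j = l
    · exact Filter.Eventually.of_forall (fun z _ _ _ _ h => absurd hjl h)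
    by_cases hkl : k = l
    · exact Filter.Eventually.of_forall (fun z _ _ _ _ _ h => absurd hkl h)
    have hdet := ht2 i j k l hij hik hil hjk hjl hkl
    have key : ∀ᶠ ρ : ℝ in 𝓝 0, ∀ a ∈ sphere (0 : E3) 1, 2 * ρ < |inner ℝ a (Q t j - Q t i)| ∨
        2 * ρ < |inner ℝ a (Q t k - Q t i)| ∨ 2 * ρ < |inner ℝ a (Q t l - Q t i)| := by
      apply (isCompact_sphere (0 : E3) 1).eventually_forall_of_forall_eventually
      intro a ha
      have ha1 : ‖a‖ = 1 := by simpa using ha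
      have hgen : ∀ w : E3, inner ℝ a w ≠ 0 →
          ∀ᶠ z : ℝ × E3 in 𝓝 (0, a), 2 * z.1 < |inner ℝ z.2 w| := by
        intro w hw
        have hc1 : Continuous (fun z : ℝ × E3 => |inner ℝ z.2 w|) := by fun_prop
        have hc2 : Continuous (fun z : ℝ × E3 => 2 * z.1) := by fun_prop
        exact (hc2.tendsto (0, a)).eventually_lt (hc1.tendsto (0, a)) (by
          simpa using hw)
      have hex : inner ℝ a (Q t j - Q t i) ≠ 0 ∨ inner ℝ a (Q t k - Q t i) ≠ 0 ∨
          inner ℝ a (Q t l - Q t i) ≠ 0 := by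
        by_contra hcon
        push Not at hcon
        obtain ⟨c1, c2, c3⟩ := hcon
        have h0 : (dmat (Q t j - Q t i) (Q t k - Q t i) (Q t l - Q t i)).mulVec ⇑a = 0 := by
          rw [dmat_mulVec, c1, c2, c3]
          ext u; fin_cases u <;> rfl
        have h1 := Matrix.eq_zero_of_mulVec_eq_zero hdet h0
        have h2 : a = 0 := by
          ext u
          exact congrFun h1 u
        rw [h2, norm_zero] at ha1
        exact zero_ne_one ha1
      rcases hex with h | h | h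
      · exact (hgen _ h).mono (fun z hz => Or.inl hz)
      · exact (hgen _ h).mono (fun z hz => Or.inr (Or.inl hz))
      · exact (hgen _ h).mono (fun z hz => Or.inr (Or.inr hz))
    exact key.mono (fun z hz _ _ _ _ _ _ => hz)
  have hall := (ht1.and N4).filter_mono (nhdsWithin_le_nhds (s := Set.Ioi (0 : ℝ)))
  obtain ⟨ρ, ⟨⟨h1, h2, h3, h4, h5⟩, h6⟩, hρpos⟩ := (hall.and self_mem_nhdsWithin).exists
  refine ⟨⟨Q t, ρ, hρpos, h1, h2, h3, ?_, ?_, ?_⟩⟩
  · exact ball_sub_hull _ (fun a ha => h4 a (by simpa using ha))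
  · rintro i j k l hij hik hil hjk hjl hkl a b ha ⟨c1, c2, c3, c4⟩
    have hd : ∀ u, |inner ℝ a (Q t u) - b| = ρ → |inner ℝ a (Q t u - Q t i)| ≤ 2 * ρ := by
      intro u hu
      rw [inner_sub_right]
      calc |inner ℝ a (Q t u) - inner ℝ a (Q t i)|
          = |(inner ℝ a (Q t u) - b) - (inner ℝ a (Q t i) - b)| := by ring_nf
        _ ≤ |inner ℝ a (Q t u) - b| + |inner ℝ a (Q t i) - b| := abs_sub _ _
        _ = 2 * ρ := by rw [hu, c1]; ring
    rcases h6 i j k l hij hik hil hjk hjl hkl a (by simpa using ha) with h | h | h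
    · exact absurd (hd j c2) (not_le.2 h)
    · exact absurd (hd k c3) (not_le.2 h)
    · exact absurd (hd l c4) (not_le.2 h)
  · rintro i j k hij hik hjk a b ha hb ⟨c1, c2, c3⟩
    rcases (abs_eq (zero_le_one' ℝ)).1 hb with hb | hb
    · rw [hb] at c1 c2 c3
      exact h5 i j k hij hik hjk a (by simpa using ha) ⟨c1, c2, c3⟩
    · have hneg : ∀ u, |inner ℝ a (Q t u) - b| = ρ → |inner ℝ (-a) (Q t u) - 1| = ρ := by
        intro u hu
        rw [← hu, hb, inner_neg_left, ← abs_neg]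
        ring_nf
      exact h5 i j k hij hik hjk (-a) (by simpa using ha) ⟨hneg i c1, hneg j c2, hneg k c3⟩

end Pool.Agent.H227R3.Cvx
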